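import Mathlib

set_option autoImplicit false

namespace Pool.Agent.Ann

/-- The representation space. -/
abbrev V : Type := ℤ → ℚ

/-- Band operators. -/
def Band (N : ℕ) (A : Module.End ℚ V) : Prop :=
  ∀ (w : V) (m : ℤ), (∀ n : ℤ, |n - m| ≤ N → w n = 0) → A w m = 0

lemma Band.mono {N M : ℕ} (h : N ≤ M) {A : Module.End ℚ V} (hA : Band N A) : Band M A := by
  intro w m hw
  apply hA w m
  intro n hn
  apply hw
  have : (N : ℤ) ≤ M := by exact_mod_cast h
  linarith

lemma Band.mul {N M : ℕ} {A B : Module.End ℚ V} (hA : Band N A) (hB : Band M B) :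
    Band (N + M) (A * B) := by
  intro w m hw
  rw [Module.End.mul_apply]
  apply hA
  intro n hn
  apply hB
  intro k hk
  apply hw
  have h1 : |k - m| ≤ |k - n| + |n - m| := by
    have := abs_add_le (k - n) (n - m)
    simpa using this
  push_cast
  linarith

lemma Band.add {N M : ℕ} {A B : Module.End ℚ V} (hA : Band N A) (hB : Band M B) :
    Band (N + M) (A + B) := by
  intro w m hw
  rw [LinearMap.add_apply, Pi.add_apply]
  rw [hA.mono (Nat.le_add_right N M) w m hw, hB.mono (Nat.le_add_left M N) w m hw, add_zero]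

lemma Band.smul {N : ℕ} {A : Module.End ℚ V} (c : ℚ) (hA : Band N A) : Band N (c • A) := by
  intro w m hw
  rw [LinearMap.smul_apply, Pi.smul_apply, hA w m hw, smul_zero]

lemma Band.one : Band 0 (1 : Module.End ℚ V) := by
  intro w m hw
  exact hw m (by simp)

/-- The group of invertible band operators with band inverse. -/
def G : Subgroup (Module.End ℚ V)ˣ where
  carrier := {g | ∃ N : ℕ, Band N (g : Module.End ℚ V) ∧ Band N ((g⁻¹ : (Module.End ℚ V)ˣ) : Module.End ℚ V)}
  mul_mem' := by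
    rintro g h ⟨N, hN1, hN2⟩ ⟨M, hM1, hM2⟩
    refine ⟨N + M, ?_, ?_⟩
    · rw [Units.val_mul]; exact hN1.mul hM1
    · rw [mul_inv_rev, Units.val_mul, add_comm]; exact hM2.mul hN2
  one_mem' := ⟨0, Band.one, by rw [inv_one]; exact Band.one⟩
  inv_mem' := by
    rintro g ⟨N, h1, h2⟩
    exact ⟨N, h2, by rw [inv_inv]; exact h1⟩

/-- The shift. -/
def shift (k : ℤ) : Module.End ℚ V where
  toFun w := fun n => w (n + k)
  map_add' _ _ := rfl
  map_smul' _ _ := rfl

lemma shift_mul (j k : ℤ) : shift j * shift k = shift (j + k) := by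
  apply LinearMap.ext
  intro w
  funext n
  show w (n + j + k) = w (n + (j + k))
  rw [add_assoc]

lemma shift_zero : shift 0 = 1 := by
  apply LinearMap.ext
  intro w
  funext n
  show w (n + 0) = w n
  rw [add_zero]

lemma shift_band (k : ℤ) : Band k.natAbs (shift k) := by
  intro w m hw
  show w (m + k) = 0
  apply hw
  have : m + k - m = k := by ring
  rw [this, Int.abs_eq_natAbs]

/-- The shift as a unit. -/
def shiftU (k : ℤ) : (Module.End ℚ V)ˣ where
  val := shift k
  inv := shift (-k)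
  val_inv := by rw [shift_mul, add_neg_cancel, shift_zero]
  inv_val := by rw [shift_mul, neg_add_cancel, shift_zero]

lemma shift_band' : Band 1 (shift (-1)) := by
  have := shift_band (-1)
  simpa using this

/-- The shift as a group element. -/
def t : G := ⟨shiftU 1, 1, shift_band 1, shift_band'⟩

open scoped Classical in
/-- The sign pattern. -/
noncomputable def eps (n : ℤ) : ℚ := if IsSquare n then 1 else -1

lemma eps_sq (n : ℤ) : eps n * eps n = 1 := by
  unfold eps
  split_ifs <;> norm_num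

/-- The diagonal operator. -/
noncomputable def dg (k : ℤ) : Module.End ℚ V where
  toFun w := fun n => eps (n + k) * w n
  map_add' x y := by funext n; simp [mul_add]
  map_smul' c x := by funext n; simp; ring

lemma dg_sq (k : ℤ) : dg k * dg k = 1 := by
  apply LinearMap.ext
  intro w
  funext n
  show eps (n + k) * (eps (n + k) * w n) = w n
  rw [← mul_assoc, eps_sq, one_mul]

lemma dg_band (k : ℤ) : Band 0 (dg k) := by
  intro w m hw
  show eps (m + k) * w m = 0
  rw [hw m (by simp), mul_zero]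

/-- The diagonal operator as a group element. -/
noncomputable def a (k : ℤ) : G := ⟨⟨dg k, dg k, dg_sq k, dg_sq k⟩, 0, dg_band k, dg_band k⟩

lemma a_mul_self (k : ℤ) : a k * a k = 1 := by
  apply Subtype.ext
  apply Units.ext
  exact dg_sq k

lemma a_comm (j k : ℤ) : a j * a k = a k * a j := by
  apply Subtype.ext
  apply Units.ext
  apply LinearMap.ext
  intro w
  funext n
  show eps (n + j) * (eps (n + k) * w n) = eps (n + k) * (eps (n + j) * w n)
  ring

lemma t_pow (k : ℕ) : (((t ^ k : G) : (Module.End ℚ V)ˣ) : Module.End ℚ V) = shift k := by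
  induction k with
  | zero => simp [shift_zero]
  | succ k ih =>
    rw [pow_succ]
    have : ((((t ^ k * t : G) : (Module.End ℚ V)ˣ)) : Module.End ℚ V) =
      (((t ^ k : G) : (Module.End ℚ V)ˣ) : Module.End ℚ V) * shift 1 := rfl
    rw [this, ih, shift_mul]
    push_cast
    rfl

lemma t_pow_a (k : ℕ) : t ^ k * a 0 = a k * t ^ k := by
  apply Subtype.ext
  apply Units.ext
  have h1 : ((((t ^ k * a 0 : G) : (Module.End ℚ V)ˣ)) : Module.End ℚ V) =
      (((t ^ k : G) : (Module.End ℚ V)ˣ) : Module.End ℚ V) * dg 0 := rfl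
  have h2 : ((((a k * t ^ k : G) : (Module.End ℚ V)ˣ)) : Module.End ℚ V) =
      dg k * (((t ^ k : G) : (Module.End ℚ V)ˣ) : Module.End ℚ V) := rfl
  rw [h1, h2, t_pow]
  apply LinearMap.ext
  intro w
  funext n
  show eps (n + k + 0) * w (n + k) = eps (n + k) * w (n + k)
  rw [add_zero]

lemma tinv_a : t⁻¹ * a 0 = a (-1) * t⁻¹ := by
  apply Subtype.ext
  apply Units.ext
  apply LinearMap.ext
  intro w
  funext n
  show eps (n + -1 + 0) * w (n + -1) = eps (n + -1) * w (n + -1)
  rw [add_zero]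

/-- The group algebra. -/
abbrev R : Type := MonoidAlgebra ℚ G

/-- Group elements in the group algebra. -/
noncomputable def o : G →* R := MonoidAlgebra.of ℚ G

/-- The representation. -/
noncomputable def ρ : R →ₐ[ℚ] Module.End ℚ V :=
  MonoidAlgebra.lift ℚ (Module.End ℚ V) G ((Units.coeHom (Module.End ℚ V)).comp G.subtype)

lemma ρ_o (g : G) : ρ (o g) = ((g : (Module.End ℚ V)ˣ) : Module.End ℚ V) := by
  unfold ρ o
  rw [MonoidAlgebra.lift_of]
  rfl

lemma ρ_band (x : R) : ∃ N : ℕ, Band N (ρ x) := by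
  induction x using MonoidAlgebra.induction_on with
  | of g =>
    obtain ⟨N, hN, _⟩ := g.2
    exact ⟨N, by rw [show (MonoidAlgebra.of ℚ G) g = o g from rfl, ρ_o]; exact hN⟩
  | add x y hx hy =>
    obtain ⟨N, hN⟩ := hx
    obtain ⟨M, hM⟩ := hy
    exact ⟨N + M, by rw [map_add]; exact hN.add hM⟩
  | smul c x hx =>
    obtain ⟨N, hN⟩ := hx
    exact ⟨N, by rw [map_smul]; exact hN.smul c⟩

/-- The element whose annihilator is not finitely generated. -/
noncomputable def al : R := (1 - o t⁻¹) * (1 - o (a 0))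

/-- The annihilating elements. -/
noncomputable def x (m : ℕ) : R :=
  (1 + o (a (-1))) * (1 + o (a m)) * ∑ k ∈ Finset.range (m + 1), o (t ^ k)

lemma geo (m : ℕ) : (∑ k ∈ Finset.range (m + 1), o (t ^ k)) * (1 - o t⁻¹) = o (t ^ m) - o t⁻¹ := by
  induction m with
  | zero => simp
  | succ m ih =>
    rw [Finset.sum_range_succ, add_mul, ih, mul_sub, mul_one, ← map_mul]
    have : t ^ (m + 1) * t⁻¹ = t ^ m := by rw [pow_succ]; simp
    rw [this]
    abel

lemma alg {S : Type} [Ring S] (Ti A B C T W : S) (h1 : C * C = 1) (h2 : B * B = 1)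
    (h3 : B * C = C * B) (h4 : T * A = C * T) (h5 : Ti * A = B * Ti)
    (h6 : W * (1 - Ti) = T - Ti) : (1 + B) * (1 + C) * W * ((1 - Ti) * (1 - A)) = 0 := by
  have e1 : (1 + B) * (1 + C) * W * ((1 - Ti) * (1 - A)) =
      (1 + B) * (1 + C) * ((W * (1 - Ti)) * (1 - A)) := by simp only [mul_assoc]
  have e2 : (T - Ti) * (1 - A) = (1 - C) * T - (1 - B) * Ti := by
    have : (T - Ti) * (1 - A) = T - Ti - (T * A - Ti * A) := by noncomm_ring
    rw [this, h4, h5]
    noncomm_ring
  have e3 : (1 + B) * (1 + C) * (1 - C) = 0 := by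
    have : (1 + B) * (1 + C) * (1 - C) = (1 + B) * (1 - C * C) := by noncomm_ring
    rw [this, h1, sub_self, mul_zero]
  have e4 : (1 + B) * (1 + C) * (1 - B) = 0 := by
    have : (1 + B) * (1 + C) * (1 - B) = (1 + C) + (B + B * C) - (B + C * B) - (B * B + B * C * B) := by
      noncomm_ring
    rw [this, h3, mul_assoc C B B, h2]
    noncomm_ring
  rw [e1, h6, e2, mul_sub, ← mul_assoc, ← mul_assoc, e3, e4, zero_mul, zero_mul, sub_zero]

lemma x_al (m : ℕ) : x m * al = 0 := by
  unfold x al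
  apply alg _ _ _ _ (o (t ^ m))
  · rw [← map_mul, a_mul_self, map_one]
  · rw [← map_mul, a_mul_self, map_one]
  · rw [← map_mul, a_comm, map_mul]
  · rw [← map_mul, t_pow_a, map_mul]
  · rw [← map_mul, tinv_a, map_mul]
  · exact geo m

/-- Delta functions. -/
noncomputable def dl (n : ℤ) : V := Pi.single n 1

lemma ρ_al (n : ℤ) (hn : ¬ IsSquare n) : ρ al (dl n) = (2 : ℚ) • (dl n - dl (n + 1)) := by
  unfold al
  rw [map_mul, map_sub, map_sub, map_one, ρ_o, ρ_o]
  rw [Module.End.mul_apply]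
  have h1 : (1 - (((a 0 : G) : (Module.End ℚ V)ˣ) : Module.End ℚ V)) (dl n) = (2 : ℚ) • dl n := by
    funext k
    show dl n k - eps (k + 0) * dl n k = 2 * dl n k
    unfold dl
    by_cases h : k = n
    · subst h
      rw [add_zero]
      unfold eps
      rw [if_neg hn]
      ring
    · simp [Pi.single_apply, h]
  rw [h1, map_smul]
  congr 1
  funext k
  show dl n k - dl n (k + -1) = dl n k - dl (n + 1) k
  unfold dl
  simp only [Pi.single_apply]
  by_cases h : k = n + 1
  · subst h; simp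
  · have : ¬ (k + -1 = n) := by omega
    simp [h, this]

lemma kill {N : ℕ} {y : R} (hy : y * al = 0) (hN : Band N (ρ y)) (k : ℕ) (hk : N < k) :
    ρ y (dl ((k : ℤ) ^ 2 + 1)) = 0 := by
  have hns : ∀ j : ℕ, j < 2 * k → ¬ IsSquare ((k : ℤ) ^ 2 + 1 + j) := by
    rintro j hj ⟨r, hr⟩
    have hj' : (j : ℤ) < 2 * k := by exact_mod_cast hj
    have h0 : (0 : ℤ) ≤ j := Int.natCast_nonneg j
    have hk0 : (0 : ℤ) ≤ k := Int.natCast_nonneg k
    have e : |r| * |r| = r * r := abs_mul_abs_self r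
    have hrn : (0 : ℤ) ≤ |r| := abs_nonneg r
    generalize |r| = q at e hrn
    have h1 : (k : ℤ) < q := by
      by_contra hcon
      push Not at hcon
      nlinarith
    have h2 : q < k + 1 := by
      by_contra hcon
      push Not at hcon
      nlinarith
    omega
  have hstep : ∀ j : ℕ, j < 2 * k → ρ y (dl ((k : ℤ) ^ 2 + 1 + j)) =
      ρ y (dl ((k : ℤ) ^ 2 + 1 + j + 1)) := by
    intro j hj
    have h1 : ρ y (ρ al (dl ((k : ℤ) ^ 2 + 1 + j))) = 0 := by
      rw [← Module.End.mul_apply, ← map_mul, hy, map_zero]; rfl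
    rw [ρ_al _ (hns j hj), map_smul, map_sub] at h1
    have h2 := (smul_eq_zero.mp h1).resolve_left (by norm_num)
    exact sub_eq_zero.mp h2
  have hall : ∀ j : ℕ, j ≤ 2 * k → ρ y (dl ((k : ℤ) ^ 2 + 1 + j)) = ρ y (dl ((k : ℤ) ^ 2 + 1)) := by
    intro j
    induction j with
    | zero => intro _; simp
    | succ j ih =>
      intro hj
      rw [← ih (by omega), hstep j (by omega)]
      push_cast
      ring_nf
  funext m
  by_cases hm : |((k : ℤ) ^ 2 + 1) - m| ≤ (N : ℤ)
  · rw [← hall (2 * k) le_rfl]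
    apply hN
    intro n hn
    unfold dl
    rw [Pi.single_apply, if_neg]
    rintro rfl
    push_cast at hn
    have hk' : (N : ℤ) < k := by exact_mod_cast hk
    rw [abs_le] at hm hn
    omega
  · apply hN
    intro n hn
    unfold dl
    rw [Pi.single_apply, if_neg]
    rintro rfl
    exact hm hn

lemma x_val (k : ℕ) : ρ (x (2 * k)) (dl ((k : ℤ) ^ 2 + 1)) ((k : ℤ) ^ 2 + 1) = 4 := by
  unfold x
  rw [map_mul, map_mul, map_add, map_add, map_one, ρ_o, ρ_o, Module.End.mul_apply,
    Module.End.mul_apply]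
  have h1 : ∀ w : V, (1 + (((a (-1) : G) : (Module.End ℚ V)ˣ) : Module.End ℚ V)) w
      ((k : ℤ) ^ 2 + 1) = 2 * w ((k : ℤ) ^ 2 + 1) := by
    intro w
    show w ((k : ℤ) ^ 2 + 1) + eps ((k : ℤ) ^ 2 + 1 + -1) * w ((k : ℤ) ^ 2 + 1) = _
    have : IsSquare ((k : ℤ) ^ 2 + 1 + -1) := ⟨k, by ring⟩
    unfold eps
    rw [if_pos this]; ring
  have h2 : ∀ w : V, (1 + (((a ((2 * k : ℕ) : ℤ) : G) : (Module.End ℚ V)ˣ) : Module.End ℚ V)) w
      ((k : ℤ) ^ 2 + 1) = 2 * w ((k : ℤ) ^ 2 + 1) := by
    intro w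
    show w ((k : ℤ) ^ 2 + 1) + eps ((k : ℤ) ^ 2 + 1 + ((2 * k : ℕ) : ℤ)) * w ((k : ℤ) ^ 2 + 1) = _
    have : IsSquare ((k : ℤ) ^ 2 + 1 + ((2 * k : ℕ) : ℤ)) := ⟨k + 1, by push_cast; ring⟩
    unfold eps
    rw [if_pos this]; ring
  rw [h1, h2, map_sum, LinearMap.sum_apply, Finset.sum_apply, Finset.sum_eq_single 0]
  · rw [ρ_o, t_pow]
    show 2 * (2 * dl ((k : ℤ) ^ 2 + 1) ((k : ℤ) ^ 2 + 1 + ((0 : ℕ) : ℤ))) = 4
    simp [dl]
    norm_num
  · intro j _ hj
    rw [ρ_o, t_pow]
    show dl ((k : ℤ) ^ 2 + 1) ((k : ℤ) ^ 2 + 1 + (j : ℤ)) = 0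
    unfold dl
    rw [Pi.single_apply, if_neg]
    omega
  · intro h; simp at h

/-- The annihilator of `al` is not finitely generated. -/
theorem main : ¬ ∃ s : Finset R,
    ((Submodule.span R (s : Set R) : Set R) = {x : R | x * al = 0}) := by
  rintro ⟨s, hs⟩
  choose N hN using ρ_band
  set k : ℕ := s.sup N + 1 with hk
  have hgen : ∀ y ∈ s, ρ y (dl ((k : ℤ) ^ 2 + 1)) = 0 := by
    intro y hy
    have hy' : y ∈ {x : R | x * al = 0} := by
      rw [← hs]; exact Submodule.subset_span hy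
    apply kill hy' (hN y) k
    have : N y ≤ s.sup N := Finset.le_sup hy
    omega
  have hx : x (2 * k) ∈ Submodule.span R (s : Set R) := by
    have : x (2 * k) ∈ (Submodule.span R (s : Set R) : Set R) := by
      rw [hs]; exact x_al (2 * k)
    exact this
  have hall : ∀ y ∈ Submodule.span R (s : Set R), ρ y (dl ((k : ℤ) ^ 2 + 1)) = 0 := by
    intro y hy
    induction hy using Submodule.span_induction with
    | mem y hy => exact hgen y hy
    | zero => rw [map_zero]; rfl
    | add y z _ _ hy hz => rw [map_add, LinearMap.add_apply, hy, hz, add_zero]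
    | smul c y _ hy => rw [smul_eq_mul, map_mul, Module.End.mul_apply, hy, map_zero]
  have h1 := x_val k
  rw [hall _ hx] at h1
  norm_num at h1

end Pool.Agent.Ann
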